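import Mathlib

/-!
Transposed Poisson algebras, free ones, generated subalgebras and ideals.
-/

set_option autoImplicit false

namespace Pool.Agent.H258Z.TP

universe u

/-- A transposed Poisson structure on the `F`-vector space `L`: a commutative associative bilinear
product (no unit), a Lie bracket, and the identity `2 z [x, y] = [z x, y] + [x, z y]`. -/
structure TPAlg (F L : Type u) [Field F] [AddCommGroup L] [Module F L] where
  mul : L →ₗ[F] L →ₗ[F] L
  br : L →ₗ[F] L →ₗ[F] L
  mul_comm : ∀ x y, mul x y = mul y x
  mul_assoc : ∀ x y z, mul (mul x y) z = mul x (mul y z)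
  br_self : ∀ x, br x x = 0
  jacobi : ∀ x y z, br x (br y z) + br y (br z x) + br z (br x y) = 0
  compat : ∀ x y z, (2 : F) • mul z (br x y) = br (mul z x) y + br x (mul z y)

variable {F : Type u} [Field F] {T : Type u} [AddCommGroup T] [Module F T]

/-- A linear map that respects both products. -/
def IsHom {L : Type u} [AddCommGroup L] [Module F L] (A : TPAlg F T) (B : TPAlg F L)
    (φ : T →ₗ[F] L) : Prop :=
  (∀ u v, φ (A.mul u v) = B.mul (φ u) (φ v)) ∧ ∀ u v, φ (A.br u v) = B.br (φ u) (φ v)

/-- `A` is the free transposed Poisson algebra on the generators `x i`: every assignment of the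
generators in a transposed Poisson algebra extends to a unique homomorphism. -/
def IsFree {n : ℕ} (A : TPAlg F T) (x : Fin n → T) : Prop :=
  ∀ (L : Type u) [AddCommGroup L] [Module F L] (B : TPAlg F L) (a : Fin n → L),
    ∃! φ : T →ₗ[F] L, IsHom A B φ ∧ ∀ i, φ (x i) = a i

/-- The subalgebra generated by `S`: the least subspace containing `S` and closed under both
products. -/
def subalg (A : TPAlg F T) (S : Set T) : Submodule F T :=
  sInf {W | S ⊆ W ∧ ∀ u ∈ W, ∀ v ∈ W, A.mul u v ∈ W ∧ A.br u v ∈ W}

/-- The ideal generated by `f`: the least subspace containing `f` and closed under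
`u ↦ a u` and `u ↦ [a, u]` for all `a`. -/
def ideal (A : TPAlg F T) (f : T) : Submodule F T :=
  sInf {W | f ∈ W ∧ ∀ a, ∀ u ∈ W, A.mul a u ∈ W ∧ A.br a u ∈ W}

end Pool.Agent.H258Z.TP
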