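import Pool.Agent.H258Z.TP.Defs

/-!
The Freiheitssatz fails for transposed Poisson algebras: after inverting an element `z` the bracket
becomes `a ∂ b - b ∂ a` for a derivation `∂`, so a power of `z` commutes with the values of the
standard identity of the Witt algebra, which do not vanish in the free algebra.
-/

set_option autoImplicit false

namespace Pool.Agent.H258Z.TP

universe u

/-! ### the standard polynomial -/

section st

variable {M M' : Type*} [AddCommGroup M] [AddCommGroup M']

def st2 (b : M → M → M) (p q y : M) : M := b p (b q y) - b q (b p y)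

def st3 (b : M → M → M) (p q r y : M) : M :=
  b p (st2 b q r y) - b q (st2 b p r y) + b r (st2 b p q y)

def st4 (b : M → M → M) (p q r s y : M) : M :=
  b p (st3 b q r s y) - b q (st3 b p r s y) + b r (st3 b p q s y) - b s (st3 b p q r y)

lemma map_st4 {b : M → M → M} {b' : M' → M' → M'} (φ : M →+ M')
    (h : ∀ u v, φ (b u v) = b' (φ u) (φ v)) (p q r s y : M) :
    φ (st4 b p q r s y) = st4 b' (φ p) (φ q) (φ r) (φ s) (φ y) := by
  simp only [st4, st3, st2, map_add, map_sub, h]

lemma st4_witt {S : Type*} [CommRing S] (d : S →+ S) (hd : ∀ s t, d (s * t) = s * d t + t * d s)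
    (p q r s y : S) : st4 (fun a b => a * d b - b * d a) p q r s y = 0 := by
  simp only [st4, st3, st2, map_add, map_sub, hd]
  ring

end st

lemma exists_loc' {R : Type u} [CommRing R] (D : R →+ R) (hD1 : D 1 = 0)
    (hD : ∀ r s, D (r * s) = r * D s + s * D r) (z : R) (S : Type u) [CommRing S] [Algebra R S]
    [IsLocalization.Away z S] :
    ∃ d : S →+ S, (∀ s t, d (s * t) = s * d t + t * d s) ∧
      ∀ r, d (algebraMap R S r) = algebraMap R S (D r) := by
  let ι : R →+* S := algebraMap R S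
  let ψ : R →+* TrivSqZeroExt S S :=
    { toFun := fun r => TrivSqZeroExt.inl (ι r) + TrivSqZeroExt.inr (ι (D r))
      map_zero' := by simp
      map_one' := by simp [hD1]
      map_add' := fun a b => by
        simp only [map_add, TrivSqZeroExt.inl_add, TrivSqZeroExt.inr_add]
        abel
      map_mul' := fun a b => by
        rw [hD]
        ext
        · simp
        · simp [mul_comm] }
  have hψ : ∀ r, ψ r = TrivSqZeroExt.inl (ι r) + TrivSqZeroExt.inr (ι (D r)) := fun r => rfl
  have hu : IsUnit (ι z) := IsLocalization.Away.algebraMap_isUnit z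
  have hunit : IsUnit (ψ z) := by
    rw [TrivSqZeroExt.isUnit_iff_isUnit_fst, hψ]
    simpa using hu
  let Ψ : S →+* TrivSqZeroExt S S := IsLocalization.Away.lift z hunit
  have hΨ : ∀ r, Ψ (ι r) = ψ r := fun r => IsLocalization.Away.lift_eq z hunit r
  have hfst : ∀ s, (Ψ s).fst = s := by
    have h1 : ((TrivSqZeroExt.fstHom S S S : TrivSqZeroExt S S →+* S).comp Ψ) = RingHom.id S := by
      refine IsLocalization.ringHom_ext (Submonoid.powers z) ?_
      refine RingHom.ext fun r => ?_
      change (Ψ (ι r)).fst = ι r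
      rw [hΨ, hψ]
      simp
    intro s
    exact DFunLike.congr_fun h1 s
  refine ⟨{ toFun := fun s => (Ψ s).snd
            map_zero' := by simp
            map_add' := fun s t => by simp }, ?_, ?_⟩
  · intro s t
    simp only [AddMonoidHom.coe_mk, ZeroHom.coe_mk, map_mul, TrivSqZeroExt.snd_mul, hfst,
      smul_eq_mul, op_smul_eq_smul]
  · intro r
    change (Ψ (ι r)).snd = ι (D r)
    rw [hΨ, hψ]
    simp

lemma exists_loc {R : Type u} [CommRing R] (D : R →+ R) (hD1 : D 1 = 0)
    (hD : ∀ r s, D (r * s) = r * D s + s * D r) (z : R) :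
    ∃ (S : Type u) (_ : CommRing S) (ι : R →+* S) (d : S →+ S) (v : S),
      (∀ r, ι r = 0 → ∃ m : ℕ, z ^ m * r = 0) ∧ ι z * v = 1 ∧
      (∀ s t, d (s * t) = s * d t + t * d s) ∧ ∀ r, d (ι r) = ι (D r) := by
  obtain ⟨d, h1, h2⟩ := exists_loc' D hD1 hD z (Localization.Away z)
  obtain ⟨v, hv⟩ := (IsLocalization.Away.algebraMap_isUnit (S := Localization.Away z)
    z).exists_right_inv
  refine ⟨Localization.Away z, inferInstance, algebraMap _ _, d, v, fun r hr => ?_, hv, h1, h2⟩
  obtain ⟨⟨_, m, rfl⟩, hm⟩ := (IsLocalization.map_eq_zero_iff (Submonoid.powers z) _ _).1 hr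
  exact ⟨m, hm⟩

variable {F : Type u} [Field F] {T : Type u} [AddCommGroup T] [Module F T]

lemma st4_mem (A : TPAlg F T) {W : Submodule F T} (hW : ∀ u ∈ W, ∀ v ∈ W, A.br u v ∈ W)
    {p q r s y : T} (hp : p ∈ W) (hq : q ∈ W) (hr : r ∈ W) (hs : s ∈ W) (hy : y ∈ W) :
    st4 (fun a b => A.br a b) p q r s y ∈ W := by
  have h2 : ∀ p ∈ W, ∀ q ∈ W, st2 (fun a b => A.br a b) p q y ∈ W := fun p hp q hq =>
    W.sub_mem (hW _ hp _ (hW _ hq _ hy)) (hW _ hq _ (hW _ hp _ hy))
  have h3 : ∀ p ∈ W, ∀ q ∈ W, ∀ r ∈ W, st3 (fun a b => A.br a b) p q r y ∈ W :=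
    fun p hp q hq r hr => W.add_mem (W.sub_mem (hW _ hp _ (h2 _ hq _ hr))
      (hW _ hq _ (h2 _ hp _ hr))) (hW _ hr _ (h2 _ hp _ hq))
  exact W.sub_mem (W.add_mem (W.sub_mem (hW _ hp _ (h3 _ hq _ hr _ hs))
    (hW _ hq _ (h3 _ hp _ hr _ hs))) (hW _ hr _ (h3 _ hp _ hq _ hs)))
    (hW _ hs _ (h3 _ hp _ hq _ hr))

lemma br_skew (A : TPAlg F T) (x y : T) : A.br x y = -A.br y x := by
  have h := A.br_self (x + y)
  simp only [map_add, LinearMap.add_apply, A.br_self, zero_add, add_zero] at h
  exact eq_neg_of_add_eq_zero_right h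

lemma cyc [CharZero F] (A : TPAlg F T) (x y z : T) :
    A.mul z (A.br x y) = A.mul x (A.br z y) - A.mul y (A.br z x) := by
  have h1 := A.compat x y z
  have h2 := A.compat z y x
  have h3 := A.compat z x y
  have e1 := br_skew A (A.mul y z) x
  have e2 := A.mul_comm z x
  have e3 := A.mul_comm z y
  have e4 := A.mul_comm y x
  have : (2 : F) • (A.mul z (A.br x y) - (A.mul x (A.br z y) - A.mul y (A.br z x))) = 0 := by
    rw [smul_sub, smul_sub, h1, h2, h3, e1, e2, e3, e4]
    abel
  rcases smul_eq_zero.1 this with h | h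
  · exact absurd h two_ne_zero
  · exact sub_eq_zero.1 h

/-- positive powers -/
def pw (A : TPAlg F T) (z : T) : ℕ → T
  | 0 => z
  | k + 1 => A.mul z (pw A z k)

section loc

variable (A : TPAlg F T)

/-- the ring with unit -/
def UR (_A : TPAlg F T) : Type u := ℤ × T

instance : AddCommGroup (UR A) := inferInstanceAs (AddCommGroup (ℤ × T))

/-- the product of the ring with unit -/
def umul (r s : ℤ × T) : ℤ × T := (r.1 * s.1, r.1 • s.2 + s.1 • r.2 + A.mul r.2 s.2)

lemma umul_comm (r s : ℤ × T) : umul A r s = umul A s r := by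
  simp only [umul, mul_comm r.1, add_comm (r.1 • s.2), A.mul_comm r.2]

lemma umul_add (r s t : ℤ × T) : umul A r (s + t) = umul A r s + umul A r t := by
  simp only [umul, Prod.fst_add, Prod.snd_add, Prod.mk_add_mk, mul_add, smul_add, add_smul,
    map_add, Prod.mk.injEq, true_and]
  abel

lemma umul_assoc (r s t : ℤ × T) : umul A (umul A r s) t = umul A r (umul A s t) := by
  simp only [umul, mul_assoc, smul_add, map_add, LinearMap.add_apply, map_zsmul,
    LinearMap.smul_apply, A.mul_assoc, smul_smul, mul_comm t.1, Prod.mk.injEq, true_and]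
  abel

lemma umul_zero (r : ℤ × T) : umul A r 0 = 0 := by simp [umul]

lemma umul_one (r : ℤ × T) : umul A r (1, 0) = r := by simp [umul]

instance : CommRing (UR A) :=
  { (inferInstance : AddCommGroup (UR A)) with
    mul := umul A
    one := ((1, 0) : ℤ × T)
    left_distrib := umul_add A
    right_distrib := fun a b c =>
      (umul_comm A _ _).trans ((umul_add A c a b).trans
        (congrArg₂ _ (umul_comm A _ _) (umul_comm A _ _)))
    zero_mul := fun a => (umul_comm A _ _).trans (umul_zero A a)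
    mul_zero := umul_zero A
    mul_assoc := umul_assoc A
    one_mul := fun a => (umul_comm A _ _).trans (umul_one A a)
    mul_one := umul_one A
    mul_comm := umul_comm A }

/-- the embedding into the ring with unit -/
def j : T →+ UR A := AddMonoidHom.inr ℤ T

/-- the projection from the ring with unit -/
def pr : UR A →+ T := AddMonoidHom.snd ℤ T

lemma pr_j (a : T) : pr A (j A a) = a := rfl

lemma pr_one : pr A 1 = 0 := rfl

lemma j_mul (a b : T) : j A (A.mul a b) = j A a * j A b := by
  change ((0, A.mul a b) : ℤ × T) = umul A (0, a) (0, b)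
  simp [umul]

lemma UR_ind (r : UR A) : ∃ (m : ℤ) (a : T), r = m • (1 : UR A) + j A a := by
  obtain ⟨m, a⟩ := r
  refine ⟨m, a, ?_⟩
  have : ((m, a) : ℤ × T) = m • ((1, 0) : ℤ × T) + (0, a) := by simp
  exact this

lemma j_inj : Function.Injective (j A) := fun a b h => by rw [← pr_j A a, h, pr_j]

lemma j_pw (z : T) (k : ℕ) : j A (pw A z k) = j A z ^ (k + 1) := by
  induction k with
  | zero => simp [pw]
  | succ k ih => rw [pw, j_mul, ih, ← pow_succ']

/-- the derivation `z ^ 3 d / d t` -/
def del (z : T) : T →+ T where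
  toFun := fun y => A.mul z (A.mul z (A.br z y)) + A.mul (A.br z (A.mul z z)) y
  map_zero' := by simp
  map_add' := fun a b => by simp only [map_add]; abel

lemma j_del (z y : T) : j A (del A z y) =
    j A z * (j A z * j A (A.br z y)) + j A (A.br z (A.mul z z)) * j A y := by
  change j A (_ + _) = _
  rw [map_add, j_mul, j_mul, j_mul]

variable [CharZero F]

lemma star (z x y : T) : j A z * j A (A.br z (A.mul x y)) =
    j A x * j A z * j A (A.br z y) + j A y * j A (A.br z (A.mul x z)) := by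
  have h1 := A.compat z y x
  rw [two_smul] at h1
  have h2 := congrArg (j A) h1
  have h3 := congrArg (j A) (cyc A (A.mul x z) y z)
  simp only [map_add, map_sub, j_mul] at h2 h3
  linear_combination (-j A z) * h2 - h3

lemma del_mul (z x y : T) : j A (del A z (A.mul x y)) =
    j A x * j A (del A z y) + j A y * j A (del A z x) := by
  have h1 := star A z x y
  have h2 := star A z z x
  rw [A.mul_comm z x] at h2
  simp only [j_del, j_mul]
  linear_combination j A z * h1 + j A y * h2

lemma br_del (z x y : T) : j A z ^ 3 * j A (A.br x y) =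
    j A x * j A (del A z y) - j A y * j A (del A z x) := by
  have h3 := congrArg (j A) (cyc A x y z)
  simp only [map_sub, j_mul] at h3
  simp only [j_del]
  linear_combination j A z ^ 2 * h3

lemma exists_witt (z : T) : ∃ (S : Type u) (_ : CommRing S) (ι : UR A →+* S) (d : S →+ S),
    (∀ r, ι r = 0 → ∃ m : ℕ, j A z ^ m * r = 0) ∧ (∀ s t, d (s * t) = s * d t + t * d s) ∧
    ∀ x y : T, ι (j A (A.br x y)) = ι (j A x) * d (ι (j A y)) - ι (j A y) * d (ι (j A x)) := by
  let D : UR A →+ UR A := (j A).comp ((del A z).comp (pr A))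
  have hD1 : D 1 = 0 := by simp [D, pr_one]
  have hDj : ∀ a, D (j A a) = j A (del A z a) := fun a => rfl
  have hD : ∀ r s, D (r * s) = r * D s + s * D r := by
    intro r s
    obtain ⟨m, a, rfl⟩ := UR_ind A r
    obtain ⟨n, b, rfl⟩ := UR_ind A s
    have e : (m • (1 : UR A) + j A a) * (n • (1 : UR A) + j A b) =
        (m * n) • (1 : UR A) + m • j A b + n • j A a + j A (A.mul a b) := by
      rw [j_mul]
      simp only [zsmul_eq_mul]
      push_cast
      ring
    rw [e]
    simp only [map_add, map_zsmul, hD1, hDj, del_mul]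
    simp only [zsmul_eq_mul]
    ring
  obtain ⟨S, _, ι, d, v, h0, hv, h1, h2⟩ := exists_loc D hD1 hD (j A z)
  refine ⟨S, inferInstance, ι,
    { toFun := fun s => v ^ 3 * d s
      map_zero' := by simp
      map_add' := fun s t => by simp [mul_add] }, h0, ?_, ?_⟩
  · intro s t
    simp only [AddMonoidHom.coe_mk, ZeroHom.coe_mk, h1]
    ring
  · intro x y
    simp only [AddMonoidHom.coe_mk, ZeroHom.coe_mk, h2, hDj]
    have h3 := congrArg ι (br_del A z x y)
    simp only [map_sub, map_mul, map_pow] at h3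
    have hv3 : ι (j A z) ^ 3 * v ^ 3 = 1 := by rw [← mul_pow, hv, one_pow]
    linear_combination v ^ 3 * h3 - ι (j A (A.br x y)) * hv3

lemma exists_pw (z p q r s y : T) :
    ∃ k, A.br (st4 (fun a b => A.br a b) p q r s y) (pw A z k) = 0 := by
  obtain ⟨S, _, ι, d, h0, hd, hbr⟩ := exists_witt A z
  set g := st4 (fun a b => A.br a b) p q r s y with hg
  let φ : T →+ S := ι.toAddMonoidHom.comp (j A)
  have h1 : φ g = 0 := by
    rw [hg, map_st4 φ (b' := fun a b => a * d b - b * d a) hbr, st4_witt d hd]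
  have h1' : ι (j A g) = 0 := h1
  have h2 : ι (j A (A.br g z)) = 0 := by
    rw [hbr, h1', map_zero]
    ring
  obtain ⟨m, hm⟩ := h0 _ h1'
  obtain ⟨m', hm'⟩ := h0 _ h2
  have e1 : A.mul (pw A z (m + m')) g = 0 := by
    apply j_inj A
    rw [j_mul, j_pw, map_zero]
    linear_combination j A z ^ (m' + 1) * hm
  have e2 : A.mul (pw A z (m + m')) (A.br g z) = 0 := by
    apply j_inj A
    rw [j_mul, j_pw, map_zero]
    linear_combination j A z ^ (m + 1) * hm'
  have h3 := A.compat g z (pw A z (m + m'))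
  rw [e1, e2, smul_zero, map_zero, LinearMap.zero_apply, zero_add, A.mul_comm] at h3
  exact ⟨m + m' + 1, h3.symm⟩

end loc

/-! ### the free algebra -/

/-- monomials -/
inductive Tr (n : ℕ) : Type
  | var : Fin n → Tr n
  | mul : Tr n → Tr n → Tr n
  | br : Tr n → Tr n → Tr n

section free

variable (F) {n : ℕ}

noncomputable def bil (op : Tr n → Tr n → Tr n) : (Tr n →₀ F) →ₗ[F] (Tr n →₀ F) →ₗ[F] (Tr n →₀ F) :=
  Finsupp.basisSingleOne.constr F fun s =>
    Finsupp.basisSingleOne.constr F fun t => Finsupp.single (op s t) 1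

variable {F}

lemma bil_single (op : Tr n → Tr n → Tr n) (s t : Tr n) :
    bil F op (Finsupp.single s 1) (Finsupp.single t 1) = Finsupp.single (op s t) 1 := by
  have h1 : ∀ s : Tr n, (Finsupp.single s 1 : Tr n →₀ F) = Finsupp.basisSingleOne s := by simp
  rw [bil, h1 s, Module.Basis.constr_basis, h1 t, Module.Basis.constr_basis]

def evT {L : Type u} [AddCommGroup L] [Module F L] (B : TPAlg F L) (a : Fin n → L) : Tr n → L
  | Tr.var i => a i
  | Tr.mul s t => B.mul (evT B a s) (evT B a t)
  | Tr.br s t => B.br (evT B a s) (evT B a t)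

noncomputable def ev {L : Type u} [AddCommGroup L] [Module F L] (B : TPAlg F L) (a : Fin n → L) :
    (Tr n →₀ F) →ₗ[F] L :=
  Finsupp.basisSingleOne.constr F (evT B a)

lemma ev_single {L : Type u} [AddCommGroup L] [Module F L] (B : TPAlg F L) (a : Fin n → L)
    (s : Tr n) : ev B a (Finsupp.single s 1) = evT B a s := by
  have h1 : ∀ s : Tr n, (Finsupp.single s 1 : Tr n →₀ F) = Finsupp.basisSingleOne s := by simp
  rw [ev, h1 s, Module.Basis.constr_basis]

lemma ev_bil {L : Type u} [AddCommGroup L] [Module F L] (B : TPAlg F L) (a : Fin n → L)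
    (op : Tr n → Tr n → Tr n) (m : L →ₗ[F] L →ₗ[F] L)
    (h : ∀ s t, evT B a (op s t) = m (evT B a s) (evT B a t)) (u v : Tr n →₀ F) :
    ev B a (bil F op u v) = m (ev B a u) (ev B a v) := by
  have : (bil F op).compr₂ (ev B a) = m.compl₁₂ (ev B a) (ev B a) := by
    refine Finsupp.basisSingleOne.ext fun s => Finsupp.basisSingleOne.ext fun t => ?_
    simp only [Finsupp.coe_basisSingleOne, LinearMap.compr₂_apply, LinearMap.compl₁₂_apply,
      bil_single, ev_single, h]
  exact LinearMap.congr_fun₂ this u v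

lemma ev_mul {L : Type u} [AddCommGroup L] [Module F L] (B : TPAlg F L) (a : Fin n → L)
    (u v : Tr n →₀ F) : ev B a (bil F Tr.mul u v) = B.mul (ev B a u) (ev B a v) :=
  ev_bil B a _ _ (fun _ _ => rfl) u v

lemma ev_br {L : Type u} [AddCommGroup L] [Module F L] (B : TPAlg F L) (a : Fin n → L)
    (u v : Tr n →₀ F) : ev B a (bil F Tr.br u v) = B.br (ev B a u) (ev B a v) :=
  ev_bil B a _ _ (fun _ _ => rfl) u v

variable (F n)

/-- the identities -/
def J : Submodule F (Tr n →₀ F) where
  carrier := {v | ∀ (L : Type u) [AddCommGroup L] [Module F L] (B : TPAlg F L) (a : Fin n → L),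
    ev B a v = 0}
  zero_mem' := fun L _ _ B a => map_zero _
  add_mem' := fun {u v} hu hv L _ _ B a => by rw [map_add, hu L B a, hv L B a, add_zero]
  smul_mem' := fun c v hv L _ _ B a => by rw [map_smul, hv L B a, smul_zero]

variable {F n}

lemma mk_eq {u v : Tr n →₀ F}
    (h : ∀ (L : Type u) [AddCommGroup L] [Module F L] (B : TPAlg F L) (a : Fin n → L),
      ev B a u = ev B a v) : (J F n).mkQ u = (J F n).mkQ v := by
  rw [Submodule.mkQ_apply, Submodule.mkQ_apply, Submodule.Quotient.eq]
  intro L _ _ B a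
  rw [map_sub, h L B a, sub_self]

lemma exists_quot (m : (Tr n →₀ F) →ₗ[F] (Tr n →₀ F) →ₗ[F] (Tr n →₀ F))
    (h1 : ∀ u ∈ J F n, ∀ v, m u v ∈ J F n) (h2 : ∀ u, ∀ v ∈ J F n, m u v ∈ J F n) :
    ∃ m' : ((Tr n →₀ F) ⧸ J F n) →ₗ[F] ((Tr n →₀ F) ⧸ J F n) →ₗ[F] ((Tr n →₀ F) ⧸ J F n),
      ∀ u v, m' ((J F n).mkQ u) ((J F n).mkQ v) = (J F n).mkQ (m u v) := by
  have k1 : J F n ≤ LinearMap.ker (m.compr₂ (J F n).mkQ) := by
    intro u hu
    rw [LinearMap.mem_ker]
    refine LinearMap.ext fun v => ?_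
    simpa using h1 u hu v
  have k2 : J F n ≤ LinearMap.ker ((J F n).liftQ _ k1).flip := by
    intro v hv
    rw [LinearMap.mem_ker]
    refine LinearMap.ext fun u => ?_
    obtain ⟨u, rfl⟩ := (J F n).mkQ_surjective u
    simpa using h2 u v hv
  exact ⟨((J F n).liftQ _ k2).flip, fun u v => by simp⟩

theorem exists_free (F : Type u) [Field F] (n : ℕ) :
    ∃ (T : Type u) (_ : AddCommGroup T) (_ : Module F T) (A : TPAlg F T) (x : Fin n → T),
      IsFree A x := by
  obtain ⟨m, hm⟩ := exists_quot (bil F (Tr.mul (n := n)))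
    (fun u hu v L _ _ B a => by rw [ev_mul, hu L B a]; simp)
    (fun u v hv L _ _ B a => by rw [ev_mul, hv L B a]; simp)
  obtain ⟨b, hb⟩ := exists_quot (bil F (Tr.br (n := n)))
    (fun u hu v L _ _ B a => by rw [ev_br, hu L B a]; simp)
    (fun u v hv L _ _ B a => by rw [ev_br, hv L B a]; simp)
  have hs := (J F n).mkQ_surjective
  let A : TPAlg F ((Tr n →₀ F) ⧸ J F n) :=
    { mul := m
      br := b
      mul_comm := fun x y => by
        obtain ⟨x, rfl⟩ := hs x
        obtain ⟨y, rfl⟩ := hs y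
        simp only [hm]
        exact mk_eq fun L _ _ B a => by simp only [ev_mul, B.mul_comm]
      mul_assoc := fun x y z => by
        obtain ⟨x, rfl⟩ := hs x
        obtain ⟨y, rfl⟩ := hs y
        obtain ⟨z, rfl⟩ := hs z
        simp only [hm]
        exact mk_eq fun L _ _ B a => by simp only [ev_mul, B.mul_assoc]
      br_self := fun x => by
        obtain ⟨x, rfl⟩ := hs x
        rw [hb, ← map_zero (J F n).mkQ]
        exact mk_eq fun L _ _ B a => by simp only [ev_br, B.br_self, map_zero]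
      jacobi := fun x y z => by
        obtain ⟨x, rfl⟩ := hs x
        obtain ⟨y, rfl⟩ := hs y
        obtain ⟨z, rfl⟩ := hs z
        simp only [hb]
        rw [← map_add, ← map_add, ← map_zero (J F n).mkQ]
        exact mk_eq fun L _ _ B a => by simp only [map_add, ev_br, B.jacobi, map_zero]
      compat := fun x y z => by
        obtain ⟨x, rfl⟩ := hs x
        obtain ⟨y, rfl⟩ := hs y
        obtain ⟨z, rfl⟩ := hs z
        simp only [hb, hm]
        rw [← map_add, ← map_smul]
        exact mk_eq fun L _ _ B a => by simp only [map_add, map_smul, ev_br, ev_mul, B.compat] }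
  refine ⟨_, inferInstance, inferInstance, A,
    fun i => (J F n).mkQ (Finsupp.single (Tr.var i) 1), ?_⟩
  intro L _ _ B a
  have k : J F n ≤ LinearMap.ker (ev B a) := fun v hv => hv L B a
  refine ⟨(J F n).liftQ _ k, ⟨⟨fun u v => ?_, fun u v => ?_⟩, fun i => ?_⟩, ?_⟩
  · obtain ⟨u, rfl⟩ := hs u
    obtain ⟨v, rfl⟩ := hs v
    change (J F n).liftQ _ k (m _ _) = _
    rw [hm]
    exact ev_mul B a u v
  · obtain ⟨u, rfl⟩ := hs u
    obtain ⟨v, rfl⟩ := hs v
    change (J F n).liftQ _ k (b _ _) = _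
    rw [hb]
    exact ev_br B a u v
  · exact ev_single B a _
  · rintro φ ⟨⟨h1, h2⟩, h3⟩
    have key : ∀ s : Tr n, φ ((J F n).mkQ (Finsupp.single s 1)) = evT B a s := by
      intro s
      induction s with
      | var i => exact h3 i
      | mul s t hs ht =>
        rw [← bil_single, ← hm]
        exact (h1 _ _).trans (by rw [hs, ht]; rfl)
      | br s t hs ht =>
        rw [← bil_single, ← hb]
        exact (h2 _ _).trans (by rw [hs, ht]; rfl)
    refine Submodule.linearMap_qext _ (Finsupp.basisSingleOne.ext fun s => ?_)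
    simp only [Finsupp.coe_basisSingleOne, LinearMap.comp_apply]
    rw [key]
    exact (ev_single B a s).symm

end free

/-! ### two test algebras -/

/-- the field with the zero bracket -/
def fieldTP (F : Type u) [Field F] : TPAlg F F where
  mul := LinearMap.mul F F
  br := 0
  mul_comm := fun x y => mul_comm x y
  mul_assoc := fun x y z => mul_assoc x y z
  br_self := fun _ => rfl
  jacobi := fun _ _ _ => by simp
  compat := fun _ _ _ => by simp

/-- matrices with the commutator and the zero product -/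
def matTP (F : Type u) [Field F] : TPAlg F (Matrix (Fin 3) (Fin 3) F) where
  mul := 0
  br := LinearMap.mul F _ - (LinearMap.mul F _).flip
  mul_comm := fun _ _ => rfl
  mul_assoc := fun _ _ _ => by simp
  br_self := fun _ => by simp
  jacobi := fun x y z => by
    simp only [LinearMap.sub_apply, LinearMap.mul_apply', LinearMap.flip_apply]
    noncomm_ring
  compat := fun _ _ _ => by simp

def mt : ℕ → Matrix (Fin 3) (Fin 3) ℤ
  | 0 => !![1, 0, 0; 0, 0, 0; 0, 0, 0]
  | 1 => !![0, 1, 0; 0, 0, 0; 0, 0, 0]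
  | 2 => !![0, 0, 1; 0, 0, 0; 0, 0, 0]
  | 3 => !![0, 0, 0; 1, 0, 0; 0, 0, 0]
  | _ => !![0, 0, 0; 0, 1, 0; 0, 0, 0]

lemma mt_st : st4 (fun a b => a * b - b * a) (mt 0) (mt 1) (mt 2) (mt 3) (mt 4) =
    !![0, 0, 2; 0, 0, 0; 0, 0, 0] := by
  simp only [st4, st3, st2, mt]
  ext i j
  fin_cases i <;> fin_cases j <;> simp

theorem not_freiheit [CharZero F] {n : ℕ} (hn : 5 ≤ n) (A : TPAlg F T) (x : Fin (n + 1) → T)
    (hx : IsFree A x) :
    ∃ f, f ∉ subalg A (x '' {i | i ≠ Fin.last n}) ∧
      ∃ g, g ≠ 0 ∧ g ∈ subalg A (x '' {i | i ≠ Fin.last n}) ∧ g ∈ ideal A f := by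
  let y : Fin 5 → T := fun i => x ⟨i, by omega⟩
  have hy : ∀ i, y i ∈ x '' {i | i ≠ Fin.last n} := fun i =>
    ⟨_, fun h => by have := congrArg Fin.val h; simp at this; omega, rfl⟩
  set g := st4 (fun a b => A.br a b) (y 0) (y 1) (y 2) (y 3) (y 4) with hg
  obtain ⟨k, hk⟩ := exists_pw A (x (Fin.last n)) (y 0) (y 1) (y 2) (y 3) (y 4)
  refine ⟨pw A (x (Fin.last n)) k + y 0, ?_, A.br g (y 0), ?_, ?_, ?_⟩
  · intro h
    obtain ⟨φ, ⟨⟨h1, h2⟩, h3⟩, -⟩ := hx F (fieldTP F) fun i => if i = Fin.last n then 1 else 0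
    have h4 : subalg A (x '' {i | i ≠ Fin.last n}) ≤ LinearMap.ker φ := by
      refine sInf_le ⟨?_, fun u hu v hv => ?_⟩
      · rintro _ ⟨i, hi, rfl⟩
        change φ (x i) = 0
        rw [h3, if_neg hi]
      · rw [LinearMap.mem_ker] at hu hv
        rw [LinearMap.mem_ker, LinearMap.mem_ker, h1, h2, hu]
        simp
    have h5 : ∀ k, φ (pw A (x (Fin.last n)) k) = 1 := by
      intro k
      induction k with
      | zero => simp [pw, h3]
      | succ k ih => simp [pw, h1, ih, h3, fieldTP]
    have h6 : φ (y 0) = 0 := h4 (by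
      refine Submodule.mem_sInf.2 fun W hW => hW.1 (hy 0))
    have h7 := h4 h
    rw [LinearMap.mem_ker, map_add, h5, h6] at h7
    simp at h7
  · intro h
    let c : Matrix (Fin 3) (Fin 3) ℤ →+* Matrix (Fin 3) (Fin 3) F := (Int.castRingHom F).mapMatrix
    obtain ⟨φ, ⟨⟨-, h2⟩, h3⟩, -⟩ := hx _ (matTP F) fun i => c (mt i)
    have h4 : ∀ u v, φ (A.br u v) = φ u * φ v - φ v * φ u := h2
    have h5 : φ g = c !![0, 0, 2; 0, 0, 0; 0, 0, 0] := by
      rw [← mt_st]
      have e1 := map_st4 (b := fun a b => A.br a b) (b' := fun a b => a * b - b * a)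
        φ.toAddMonoidHom h4 (y 0) (y 1) (y 2) (y 3) (y 4)
      have e2 := map_st4 (b := fun a b => a * b - b * a) (b' := fun a b => a * b - b * a)
        c.toAddMonoidHom (fun u v => by simp) (mt 0) (mt 1) (mt 2) (mt 3) (mt 4)
      have e3 : ∀ i : Fin 5, φ (y i) = c (mt i) := fun i => h3 _
      simp only [LinearMap.toAddMonoidHom_coe, e3] at e1
      exact e1.trans e2.symm
    have h6 := congrArg φ h
    have e0 : φ (y 0) = c (mt 0) := h3 _
    rw [h4, h5, e0, map_zero, ← map_mul, ← map_mul, ← map_sub] at h6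
    have h7 := congrFun (congrFun h6 0) 2
    simp [c, mt] at h7
  · refine Submodule.mem_sInf.2 fun W hW => ?_
    have h1 : ∀ i, y i ∈ W := fun i => hW.1 (hy i)
    exact (hW.2 _ (st4_mem A (fun u hu v hv => (hW.2 u hu v hv).2) (h1 0) (h1 1) (h1 2) (h1 3)
      (h1 4)) _ (h1 0)).2
  · refine Submodule.mem_sInf.2 fun W hW => ?_
    have h1 := (hW.2 g _ hW.1).2
    rwa [map_add, hk, zero_add] at h1

end Pool.Agent.H258Z.TP
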